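import Pool.Agent.H7.LP.Targets

/-!
# Matching of sequences in which all values occur infinitely often
-/

set_option autoImplicit false

namespace Pool.Agent.H42.LP

open Pool.Agent.H7.LP

private theorem inf_of {T : Type} (f : ℕ → T) (t : T) (h : ∀ N : ℕ, ∃ k, N ≤ k ∧ f k = t) :
    Infinite {k // f k = t} := by
  rw [← not_finite_iff_infinite]
  intro hfin
  have h1 : Set.Finite {k | f k = t} := hfin
  obtain ⟨N, hN⟩ := h1.bddAbove
  obtain ⟨k, hk, hk'⟩ := h (N + 1)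
  have h2 : k ≤ N := hN hk'
  omega

private theorem eqv_of {T : Type} (f : ℕ → T) (t : T) (h : ∀ N : ℕ, ∃ k, N ≤ k ∧ f k = t) :
    Nonempty ({k // f k = t} ≃ ℕ) := by
  classical
  have := inf_of f t h
  have : Infinite {k | f k = t} := this
  exact ⟨(Nat.Subtype.orderIsoOfNat {k | f k = t}).toEquiv.symm⟩

theorem pf_MAT : T_MAT := by
  intro T f f' h1 h2 h3 h4
  have hex : ∀ t : T, Nonempty ({k // f' k = t} ≃ {k // f k = t}) := by
    intro t
    by_cases hf : ∃ k, f k = t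
    · obtain ⟨k, rfl⟩ := hf
      obtain ⟨a⟩ := eqv_of f (f k) (h1 k)
      obtain ⟨b⟩ := eqv_of f' (f k) (h2 k)
      exact ⟨b.trans a.symm⟩
    · by_cases hf' : ∃ k, f' k = t
      · obtain ⟨k, rfl⟩ := hf'
        obtain ⟨a⟩ := eqv_of f (f' k) (h3 k)
        obtain ⟨b⟩ := eqv_of f' (f' k) (h4 k)
        exact ⟨b.trans a.symm⟩
      · have : IsEmpty {k // f k = t} := ⟨fun k => hf ⟨k.1, k.2⟩⟩
        have : IsEmpty {k // f' k = t} := ⟨fun k => hf' ⟨k.1, k.2⟩⟩
        exact ⟨Equiv.equivOfIsEmpty _ _⟩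
  have e := fun t => (hex t).some
  exact ⟨Equiv.ofFiberEquiv e, fun j => (Equiv.ofFiberEquiv_map e j).symm⟩

end Pool.Agent.H42.LP
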