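import Pool.Agent.H7.LP.Targets

/-!
# The type of an index occurs
-/

set_option autoImplicit false

open Set Filter Topology

namespace Pool.Agent.H42.LP

open Pool.Agent.H7.LP Pool.Agent.H93.CP

theorem pf_PRS : T_PRS := by
  intro G X _ _ _ _ L M _ Y S x e w he hw q
  constructor
  · rintro ⟨n, hn⟩
    exact ((hw _ _ _).1 hn).1
  · rintro ⟨g, hg⟩
    have h0 : S.Node x q (e (q, 0)) := he.node q g hg 0
    have hA : S.Adm q q (e (q, 0) * (e (q, 0))⁻¹) := by
      rw [mul_inv_cancel]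
      refine ⟨fun a ha => ?_, fun a ha => ?_, fun a ha => ?_⟩
      · simpa using ha
      · simpa using ha
      · simpa using ha
    obtain ⟨n, hn⟩ := S.gam x q q _ _ h0 h0 hA
    exact ⟨n, (hw (q, 0) (q, 0) n).2 ⟨⟨g, hg⟩, ⟨g, hg⟩, hA, hn⟩⟩

end Pool.Agent.H42.LP
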